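import Pool.Agent.SR32.NPFinal

/-!
# The index of the soluble radical

Definitions (in `Defs.lean`, `DefsFac.lean` and `NPDefs.lean` of `Pool/Agent/SR32/`), for finite
groups:

* `om G` is the number of orbits of the automorphism group of `G` on `G`;
* `oo G` is the number of orders of elements of `G`;
* `ll G = log (om G) / log (oo G)`;
* `Rad G` is the join of all soluble normal subgroups of `G` (the soluble radical);
* `IsMinNormal M` says that `M` is a minimal normal subgroup;
* `Fac H` is the set of the simple factors of the minimal normal subgroups of `H`, that is of all
  `S ≤ M` such that `M` is a minimal normal subgroup of `H` and `S` is a minimal normal subgroup of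
  `M`; for `H = G ⧸ Rad G` they are nonabelian simple groups, since `H` has no abelian minimal normal
  subgroup and a minimal normal subgroup is a direct power of a simple group;
* `A d` is the alternating group of degree `d`;
* `Matrix.ProjectiveSpecialLinearGroup (Fin n) F` is `PSL (n, F)`, the group `SL (n, F)` modulo its
  centre;
* `FacPL η H` says that every `S` in `Fac H` satisfies `oo (Aut S) ^ η |S| ≤ om S`, or is isomorphic to
  some `A d` with `d ≥ 5`, or is isomorphic to `PSL (n, F)` for some `n` and some finite field `F`.

The proof contains (folder `Pool/Agent/PR12/`) that a primitive permutation group of sufficiently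
large degree `n` contains the alternating group or has order at most `2 ^ n`, without the
classification of the finite simple groups, and (folders `Pool/Agent/PL3/` and `Pool/Agent/PLN/`) that
for every `L` all but finitely many `S = PSL (n, F)` satisfy `oo (Aut S) ^ L ≤ om S`.

By the classification (which is not used and not contained in the Lean proof), `FacPL η (G ⧸ Rad G)`
holds for all finite groups `G`, for one suitable function `η` that tends to infinity, so the theorem
then bounds the index of the soluble radical for all nontrivial finite groups; the rest of this
comment is a proof of this statement.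

**The condition holds for all finite groups, with one fixed function `η₀` tending to infinity**

(From the classification of the finite simple groups; not proved in the Lean.)  We need a function
`η₀` tending to infinity with `oo (Aut S) ^ η₀ |S| ≤ om S` for all nonabelian finite simple groups `S`
which are not alternating.  It suffices that `log (om S) / log (oo (Aut S)) → ∞` as `|S| → ∞` for these
`S`: take for `η₀ n` the minimum of `n` and of the numbers `⌊log (om S) / log (oo (Aut S))⌋` over the `S`
with `|S| ≥ n`.  There are 26 sporadic groups and the Tits group, so let `S` be of Lie type, of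
rank `r` (of the simply connected algebraic group) with field parameter `q` (`F` acts on the
characters as `q` times a map of finite order; for Suzuki and Ree groups `q² = p^(2m+1)`), and
`u = r log q`.  As `|S| → ∞` also `u → ∞`.  `C, C', ...` are absolute constants, `o(u)` is for `u → ∞`,
which covers both `r → ∞` and `q → ∞`.

(1) `om S ≥ e^u / (C u²)`.  Let `S = G/Z` with `G` the simply connected finite group, `Z` its
centre, `|Z| ≤ r + 1`.  `G` has exactly `q^r` semisimple classes (Steinberg 1968; Carter, Finite
Groups of Lie Type, 3.7.6), so `S` has at least `q^r/|Z|` classes, and `om S ≥ q^r/(|Z| |Out S|)`,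
`|Out S| = d f g ≤ C' r log q`.

(2) `oo (Aut S) ≤ e^(o(u))`.  If `g` in `Aut S` has order `m` modulo `S` then its order is `m` times
the order of `g^m` in `S`, so `oo (Aut S) ≤ |Out S| oo S`.  If `S` is classical then `S = K/Z(K)` with
`K = SL, SU, Sp, Ω ≤ GL_n(Q)`, `n ≤ 2r + 1`, `Q ∈ {q, q²}`, `|Z(K)| ≤ r + 1`, and
`oo S ≤ |Z(K)| oo K`; if `S` is exceptional then `r ≤ 8` and `S ≤ GL_n(Q)` with `n ≤ 248`,
`Q ∈ {q, q², q³}` (adjoint module).  The order of an element of `GL_n(Q)` is `p^k m` with
`p^k < p n`, and `m` the lcm of the orders of the eigenvalues, so `m = lcm (m_d : d ∈ D)` with `D` a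
set of distinct positive integers of sum at most `n` (the degrees of the eigenvalues over `F_Q`) and
`m_d ∣ Q^d - 1`.  There are at most `e^(C √n)` sets `D`.  Let `ε > 0`.  By the divisor bound
`τ(Q^d - 1) ≤ Q^(ε d)` if `Q^d > K(ε)`; at most `log₂ K(ε)` values of `d` have `Q^d ≤ K(ε)`, and for them
`τ(Q^d - 1) ≤ K(ε)`.  So `oo (GL_n(Q)) ≤ (log₂ n + 2) e^(C √n) C_ε Q^(ε n)`, and
`n log Q ≤ 2 (2r + 1) log q ≤ 6 u` (classical), `≤ 744 u` (exceptional).
-/

set_option autoImplicit false

namespace Pool.Agent.Results.MP_f792c6_al.RadicalIndex

open SR32 Filter

universe u

/-- For every function `η` tending to infinity there is a function `f` of two real variables,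
strictly increasing in each of them and with values at least `1` on `[1, ∞) × [1, ∞)`, such that the
index of the soluble radical of `G` is at most `f (ll G) (oo (Rad G))` for every nontrivial finite
group `G` such that every simple factor `S` of every minimal normal subgroup of `G ⧸ Rad G` is
alternating, or isomorphic to `PSL (n, F)` for some `n` and some finite field `F`, or has at least
`oo (Aut S) ^ η |S|` automorphism classes. -/
theorem result (η : ℕ → ℕ) (hη : Tendsto η atTop atTop) : ∃ f : ℝ → ℝ → ℝ,
    (∀ x y, 1 ≤ x → 1 ≤ y → 1 ≤ f x y) ∧ (∀ y, StrictMono (fun x => f x y)) ∧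
    (∀ x, StrictMono (fun y => f x y)) ∧
    ∀ (G : Type u) [Group G] [Finite G] [Nontrivial G],
      FacPL η (G ⧸ Rad G) → ((Rad G).index : ℝ) ≤ f (ll G) (oo (Rad G)) :=
  finalPL η hη

end Pool.Agent.Results.MP_f792c6_al.RadicalIndex
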